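import Mathlib
import Pool.Agent.R484.CA2

set_option autoImplicit false

/-!
# The elements of the cycles of the 3x+1 map in arithmetic progressions

The elements of the cycles are sparse, with a power saving which does not depend on the cycles, not
only in all intervals but in all finite sets which are not too thin and whose elements are spread
over the residue classes modulo the power of two next to their number; for example in all
arithmetic progressions with `n` terms and any odd difference up to `n ^ 0.259`, or any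
difference up to `n ^ 0.163`.

Method. Modulo `2 ^ k` the parities of the first `k` iterates determine the class, so that few
elements have more than `θ k` odd iterates, for every `θ > 1 / 2`; the `k`-th iterate is injective
on the cycles and maps the other elements into about `k` intervals which are shorter by the
factor `3 ^ θ / 2`, and these contain few elements of cycles by the theorem on intervals.
-/

namespace Pool.Agent.Results.MP_edb5be_nt.CyclicInProgressions

/-- The 3x+1 map on the integers. -/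
def T (x : ℤ) : ℤ := if x % 2 = 0 then x / 2 else (3 * x + 1) / 2

/-- `x` lies on a cycle of `T`. -/
def OnCycle (x : ℤ) : Prop := ∃ p : ℕ, 1 ≤ p ∧ T^[p] x = x

/-- The base-two binary entropy of `θ`. -/
noncomputable def h (θ : ℝ) : ℝ := Real.binEntropy θ / Real.log 2

/-- The base-two binary entropy `0.94995...` of `log 2 / log 3`. -/
noncomputable def β : ℝ := h (Real.log 2 / Real.log 3)

/-- the number of the `j` in `{0, ..., n - 1}` for which `a + q j` lies on a cycle -/
noncomputable def count (n : ℕ) (a q : ℤ) : ℕ := {j : ℕ | j < n ∧ OnCycle (a + q * j)}.ncard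

theorem count_le {n : ℕ} {a q : ℤ} (hq : q ≠ 0) {B : ℝ}
    (h : ∀ X : Finset ℤ, (∀ x ∈ X, x ∈ Function.periodicPts Pool.Agent.H319R2.T ∧
      ∃ j : ℕ, j < n ∧ x = a + q * j) → (X.card : ℝ) ≤ B) : (count n a q : ℝ) ≤ B := by
  classical
  have e : {j : ℕ | j < n ∧ OnCycle (a + q * j)} =
      (((Finset.range n).filter fun j : ℕ => OnCycle (a + q * j) : Finset ℕ) : Set ℕ) := by
    ext j; simp
  unfold count
  rw [e, Set.ncard_coe_finset]
  rw [← Finset.card_image_of_injective (f := fun j : ℕ => a + q * (j : ℤ)) _ (by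
    intro i j hij
    have h1 : q * (i : ℤ) = q * (j : ℤ) := by simpa using hij
    exact_mod_cast mul_left_cancel₀ hq h1)]
  apply h
  intro x hx
  obtain ⟨j, hj, rfl⟩ := Finset.mem_image.1 hx
  obtain ⟨h1, p, hp, h2⟩ := Finset.mem_filter.1 hj
  exact ⟨⟨p, hp, h2⟩, j, Finset.mem_range.1 h1, rfl⟩

/-- (1) For `1 / 2 < θ < 1` and `η > β` there is `C` such that for all `k`, `m` and `R ≥ 2 ^ k`, every
finite set `X` of elements of cycles which lies in an interval `[y - R, y + R]` and has at most `m`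
elements in each residue class modulo `2 ^ k` has at most
`m 2 ^ (k h(θ)) + C (R (3 ^ θ / 2) ^ k) ^ η` elements.
(2) For every `κ < 1 / β - log 3 / (2 log 2)` there are `δ > 0` and `C` such that among the
`n` terms of every arithmetic progression with difference `2 ^ s r`, where `r` is odd and
`3 ^ s |r| ≤ n ^ κ`, at most `C n ^ (1 - δ)` lie on cycles.
(3) For every `κ < log 2 / (β log 3) - 1 / 2` there are `δ > 0` and `C` such that among the `n` terms of
every arithmetic progression with difference `q`, where `1 ≤ |q| ≤ n ^ κ`, at most `C n ^ (1 - δ)` lie on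
cycles.
(4) The bounds for `κ` are larger than `0.259` and `0.163`. -/
theorem result :
    (∀ θ η : ℝ, 1 / 2 < θ → θ < 1 → β < η → ∃ C : ℝ, ∀ (k m : ℕ) (y R : ℝ) (X : Finset ℤ),
      (2 : ℝ) ^ k ≤ R → (∀ x ∈ X, OnCycle x ∧ |(x : ℝ) - y| ≤ R) →
      (∀ r : ℤ, (X.filter fun x => (2 : ℤ) ^ k ∣ x - r).card ≤ m) →
      (X.card : ℝ) ≤ m * 2 ^ (k * h θ) + C * (R * (3 ^ θ / 2) ^ k) ^ η) ∧
    (∀ κ : ℝ, κ < 1 / β - Real.log 3 / (2 * Real.log 2) → ∃ δ C : ℝ, 0 < δ ∧
      ∀ (n s : ℕ) (a r : ℤ), 1 ≤ n → Odd r → 3 ^ s * |(r : ℝ)| ≤ (n : ℝ) ^ κ →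
        (count n a (2 ^ s * r) : ℝ) ≤ C * (n : ℝ) ^ (1 - δ)) ∧
    (∀ κ : ℝ, κ < Real.log 2 / (β * Real.log 3) - 1 / 2 → ∃ δ C : ℝ, 0 < δ ∧
      ∀ (n : ℕ) (a q : ℤ), 1 ≤ n → q ≠ 0 → |(q : ℝ)| ≤ (n : ℝ) ^ κ →
        (count n a q : ℝ) ≤ C * (n : ℝ) ^ (1 - δ)) ∧
    0.259 < 1 / β - Real.log 3 / (2 * Real.log 2) ∧
    0.163 < Real.log 2 / (β * Real.log 3) - 1 / 2 := by
  have hl2 : 0 < Real.log 2 := Real.log_pos (by norm_num)
  have hβ : β = Pool.Agent.H319R2.beta := rfl
  have hβ0 : 0 < β := by rw [hβ]; exact lt_trans (by norm_num) Pool.Agent.H319R2.beta_gt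
  refine ⟨?_, ?_, ?_, Pool.Agent.R484.CA.numeric⟩
  · intro θ η h1 h2 hη
    obtain ⟨C, -, hC⟩ := Pool.Agent.R484.CA.general θ η h1 h2 hη (hβ0.trans hη)
    refine ⟨C, fun k m y R X hR hX hm => ?_⟩
    have e : (2 : ℝ) ^ (k * h θ) = Real.exp (k * Real.binEntropy θ) := by
      rw [Real.rpow_def_of_pos (by norm_num), h]
      congr 1; field_simp
    rw [e]
    exact hC _ Pool.Agent.H319R2.tame_periodic k m y R X hR
      (fun x hx => by obtain ⟨⟨p, hp, hpx⟩, h⟩ := hX x hx; exact ⟨⟨p, hp, hpx⟩, h⟩) hm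
  · intro κ hκ
    obtain ⟨δ, hδ, C, -, hC⟩ := Pool.Agent.R484.CA.ap κ hκ
    refine ⟨δ, C, hδ, fun n s a r hn hr hrn => count_le ?_ ?_⟩
    · intro h0
      rcases mul_eq_zero.1 h0 with h | h
      · exact absurd h (by positivity)
      · rw [h] at hr; exact absurd hr (by decide)
    · intro X hX
      exact hC _ Pool.Agent.H319R2.tame_periodic n s a r hn (Int.odd_iff.1 hr) hrn X hX
  · intro κ hκ
    obtain ⟨δ, hδ, C, -, hC⟩ := Pool.Agent.R484.CA.ap_all κ hκ
    refine ⟨δ, C, hδ, fun n a q hn hq hqn => count_le hq ?_⟩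
    intro X hX
    exact hC _ Pool.Agent.H319R2.tame_periodic n a q hn hq hqn X hX

end Pool.Agent.Results.MP_edb5be_nt.CyclicInProgressions
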