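import Mathlib
import Pool.Agent.R343.LZ3

set_option autoImplicit false

/-!
# The Lempel-Ziv complexity of the parity words of the cycles of the 3x+1 map

A parse of the parity word of a trajectory into phrases, each of which without its last letter is a
copy of an earlier part of the word (at any distance, overlaps allowed), has at least
`log n / log (log 3 / log 2) - O(log log |x|)` phrases as long as the terms are different. For a cycle
the linear form in `log 2`, `log 3` bounds the least element polynomially in the length, so that the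
parity words of cycles cannot be compressed by the Lempel-Ziv method below
`log p / log (log 3 / log 2) - O(log log p)` phrases; for each `z` there are at most `C 2 ^ (36 z)`
cycles with at most `z` phrases, and those with at most seven phrases are the five known ones.
The m-cycles (words with `2 m` runs), words with few errors with respect to a shifted copy of
themselves, and all words generated by few copy operations are special cases.

Proof: two different integers whose next `g` parities agree differ by a multiple of `2 ^ g`, so a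
phrase is at most as long as the larger of the two terms has binary digits (plus two), and the number
of digits grows by `log_2 3 - 1` at most in each step.
-/

namespace Pool.Agent.Results.MP_edb5be_nt.LempelZiv

/-- The 3x+1 map on the integers. -/
def T (x : ℤ) : ℤ := if x % 2 = 0 then x / 2 else (3 * x + 1) / 2

/-- `Z` is a cycle of `T`. -/
def IsCycle (Z : Finset ℤ) : Prop :=
  ∃ (x : ℤ) (p : ℕ), 1 ≤ p ∧ T^[p] x = x ∧ Z = (Finset.range p).image fun i => T^[i] x

/-- The parity word of `x`. -/
def par (x : ℤ) (i : ℕ) : ℤ := T^[i] x % 2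

/-- The word `w 0, ..., w (n-1)` is the concatenation of `z` nonempty words (the phrases; the cuts are
`0 = t 0 < t 1 < ... < t z = n`), each of which consists of one letter, or is such that the word which
remains if its last letter is deleted occurs in `w` also from an earlier position `j < t k` on (the
two occurrences may overlap). -/
def Phrases (w : ℕ → ℤ) (n z : ℕ) : Prop :=
  ∃ t : ℕ → ℕ, t 0 = 0 ∧ t z = n ∧ ∀ k < z, t k < t (k + 1) ∧
    (t (k + 1) = t k + 1 ∨ ∃ j < t k, ∀ i, t k + i + 1 < t (k + 1) → w (t k + i) = w (j + i))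

/-- The Lempel-Ziv complexity of the word `w 0, ..., w (n-1)`: the least number of phrases. -/
noncomputable def lz (w : ℕ → ℤ) (n : ℕ) : ℕ := sInf {z | Phrases w n z}

open Pool.Agent.R343 in
lemma lz_eq (w : ℕ → ℤ) (n : ℕ) : lz w n = LZ.lz w n := rfl

lemma par_eq (x : ℤ) : par x = fun i => (Pool.Agent.Y780.Cz.T 3 1)^[i] x % 2 := rfl

lemma cycle_one : IsCycle {1, 2} := ⟨1, 2, by norm_num, by decide, by decide⟩

lemma cycle_zero : IsCycle {0} := ⟨0, 1, by norm_num, by decide, by decide⟩

lemma cycle_neg_one : IsCycle {-1} := ⟨-1, 1, by norm_num, by decide, by decide⟩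

lemma cycle_neg_five : IsCycle {-5, -7, -10} := ⟨-5, 3, by norm_num, by decide, by decide⟩

lemma cycle_neg_seventeen : IsCycle {-17, -25, -37, -55, -82, -41, -61, -91, -136, -68, -34} :=
  ⟨-17, 11, by norm_num, by decide, by decide⟩

lemma known_cases : ∀ x ∈ Pool.Agent.Y780.Cz.Known, x ∈ ({1, 2} : Finset ℤ) ∨ x ∈ ({0} : Finset ℤ) ∨
    x ∈ ({-1} : Finset ℤ) ∨ x ∈ ({-5, -7, -10} : Finset ℤ) ∨
    x ∈ ({-17, -25, -37, -55, -82, -41, -61, -91, -136, -68, -34} : Finset ℤ) := by decide

lemma trivial_parse (w : ℕ → ℤ) (n : ℕ) : Phrases w n n :=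
  ⟨fun k => k, rfl, rfl, fun k _ => ⟨Nat.lt_succ_self k, Or.inl rfl⟩⟩

lemma parse17 : Phrases (par (-17)) 11 4 := by
  refine ⟨fun k => if k = 0 then 0 else if k = 1 then 1 else if k = 2 then 5 else if k = 3 then 10 else 11,
    rfl, rfl, ?_⟩
  intro k hk
  interval_cases k
  · exact ⟨by norm_num, Or.inl (by norm_num)⟩
  · refine ⟨by norm_num, Or.inr ⟨0, by norm_num, ?_⟩⟩
    intro i hi
    norm_num at hi
    have : i < 3 := by omega
    interval_cases i <;> decide
  · refine ⟨by norm_num, Or.inr ⟨1, by norm_num, ?_⟩⟩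
    intro i hi
    norm_num at hi
    have : i < 4 := by omega
    interval_cases i <;> decide
  · exact ⟨by norm_num, Or.inl (by norm_num)⟩

open Pool.Agent.R343 in
lemma closed {Z : Finset ℤ} (hZ : IsCycle Z) {x : ℤ} (hx : x ∈ Z) (hmin : ∀ y ∈ Z, |x| ≤ |y|) (j : ℕ) :
    |x| ≤ |(Pool.Agent.Y780.Cz.T 3 1)^[j] x| := by
  apply hmin
  have hZ' : Pool.Agent.H547R3.IsCycle Z := hZ
  exact hZ'.closed hx j

/-- (1) For all integers `x` and all `n` such that `x, T x, ..., T ^ (n-1) x` are different, if `z` is the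
Lempel-Ziv complexity of the parity word of `x` of length `n` then
`n ≤ (2 + log_2 (|x| + 1)) (1 + δ + ... + δ ^ (z-1))`, where `δ = log 3 / log 2`, and
`n ≤ z (2 + log_2 (M + 1))` if these terms have absolute value at most `M`.
(2) There is `A` such that for every cycle with `p` elements, if `z` is the Lempel-Ziv complexity of
its parity word, read once around the cycle from an element of least absolute value, then
`p ≤ A (1 + log p) δ ^ z`; so `z ≥ log p / log δ - O(log log p)`.
(3) There is `C` such that for every `z` there are at most `C 2 ^ (36 z)` cycles for which this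
complexity is at most `z`.
(4) A finite set is a cycle for which this complexity is at most seven if and only if it is one of
the five known cycles. -/
theorem result :
    (∀ (x : ℤ) (n : ℕ), Set.InjOn (fun i => T^[i] x) (Set.Iio n) →
      (n : ℝ) ≤ (2 + Real.logb 2 (|(x : ℝ)| + 1)) *
        ∑ k ∈ Finset.range (lz (par x) n), (Real.log 3 / Real.log 2) ^ k ∧
      ∀ M : ℝ, (∀ i < n, |((T^[i] x : ℤ) : ℝ)| ≤ M) →
        (n : ℝ) ≤ lz (par x) n * (2 + Real.logb 2 (M + 1))) ∧
    (∃ A : ℝ, ∀ Z : Finset ℤ, IsCycle Z → ∀ x ∈ Z, (∀ y ∈ Z, |x| ≤ |y|) →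
      (Z.card : ℝ) ≤ A * (1 + Real.log Z.card) *
        (Real.log 3 / Real.log 2) ^ lz (par x) Z.card) ∧
    (∃ C : ℝ, ∀ z : ℕ,
      {Z : Finset ℤ | IsCycle Z ∧ ∃ x ∈ Z, (∀ y ∈ Z, |x| ≤ |y|) ∧ lz (par x) Z.card ≤ z}.Finite ∧
      ({Z : Finset ℤ | IsCycle Z ∧ ∃ x ∈ Z, (∀ y ∈ Z, |x| ≤ |y|) ∧ lz (par x) Z.card ≤ z}.ncard : ℝ) ≤
        C * 2 ^ (36 * z)) ∧
    (∀ Z : Finset ℤ, (IsCycle Z ∧ ∃ x ∈ Z, (∀ y ∈ Z, |x| ≤ |y|) ∧ lz (par x) Z.card ≤ 7) ↔
      Z = {0} ∨ Z = {-1} ∨ Z = {1, 2} ∨ Z = {-5, -7, -10} ∨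
        Z = {-17, -25, -37, -55, -82, -41, -61, -91, -136, -68, -34}) := by
  refine ⟨?_, ?_, ?_, ?_⟩
  · intro x n hinj
    have hinj' : ∀ i < n, ∀ j < n, (Pool.Agent.Y780.Cz.T 3 1)^[i] x = (Pool.Agent.Y780.Cz.T 3 1)^[j] x →
        i = j := fun i hi j hj h => hinj hi hj h
    refine ⟨Pool.Agent.R343.LZ.traj x n _ hinj' (Pool.Agent.R343.LZ.phrases_lz _ _), fun M hM => ?_⟩
    exact Pool.Agent.R343.LZ.traj_max x n _ hinj' (Pool.Agent.R343.LZ.phrases_lz _ _) M hM
  · obtain ⟨A, -, hA⟩ := Pool.Agent.R343.LZ.cyc_bound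
    refine ⟨A, fun Z hZ x hx hmin => ?_⟩
    obtain ⟨h1, h2, h3⟩ := Pool.Agent.R343.LZ.elem hZ hx
    exact hA x Z.card _ h1 h2 h3 (closed hZ hx hmin) (Pool.Agent.R343.LZ.phrases_lz _ _)
  · exact Pool.Agent.R343.LZ.count
  · intro Z
    constructor
    · rintro ⟨hZ, x, hx, hmin, hl⟩
      obtain ⟨h1, h2, h3⟩ := Pool.Agent.R343.LZ.elem hZ hx
      have hxK := Pool.Agent.R343.LZ.seven h1 h2 h3 (closed hZ hx hmin) hl
        (Pool.Agent.R343.LZ.phrases_lz _ _)
      have hZ' : Pool.Agent.H547R3.IsCycle Z := hZ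
      have key : ∀ Z' : Finset ℤ, IsCycle Z' → x ∈ Z' → Z = Z' := fun Z' hc hm => hZ'.eq_of_mem hc hx hm
      rcases known_cases x hxK with h | h | h | h | h
      · exact Or.inr (Or.inr (Or.inl (key _ cycle_one h)))
      · exact Or.inl (key _ cycle_zero h)
      · exact Or.inr (Or.inl (key _ cycle_neg_one h))
      · exact Or.inr (Or.inr (Or.inr (Or.inl (key _ cycle_neg_five h))))
      · exact Or.inr (Or.inr (Or.inr (Or.inr (key _ cycle_neg_seventeen h))))
    · rintro (rfl | rfl | rfl | rfl | rfl)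
      · exact ⟨cycle_zero, 0, by decide, by decide, (Nat.sInf_le (trivial_parse _ _)).trans (by decide)⟩
      · exact ⟨cycle_neg_one, -1, by decide, by decide, (Nat.sInf_le (trivial_parse _ _)).trans (by decide)⟩
      · exact ⟨cycle_one, 1, by decide, by decide, (Nat.sInf_le (trivial_parse _ _)).trans (by decide)⟩
      · exact ⟨cycle_neg_five, -5, by decide, by decide, (Nat.sInf_le (trivial_parse _ _)).trans (by decide)⟩
      · refine ⟨cycle_neg_seventeen, -17, by decide, by decide, ?_⟩
        have h11 : ({-17, -25, -37, -55, -82, -41, -61, -91, -136, -68, -34} : Finset ℤ).card = 11 := by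
          decide
        rw [h11]
        exact (Nat.sInf_le parse17).trans (by norm_num)

end Pool.Agent.Results.MP_edb5be_nt.LempelZiv
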