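import Pool.Agent.R344.FP.V

/-!
Natural densities of the predecessor sets of the 3x+1 map on the integers.
-/

set_option autoImplicit false

namespace Pool.Agent.Results.MP_edb5be_nt.PredecessorDensities

open Finset Filter Topology

/-- the 3x+1 map on the integers -/
def T (x : ℤ) : ℤ := if x % 2 = 0 then x / 2 else (3 * x + 1) / 2

/-- among the integers of sign `s` (`s = 1` or `s = -1`), those whose trajectory contains `b` have
natural density `δ` -/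
def HasPredecessorDensity (s b : ℤ) (δ : ℝ) : Prop :=
  Tendsto (fun N : ℕ => (Nat.card {n : ℕ // 1 ≤ n ∧ n ≤ N ∧ ∃ k : ℕ, T^[k] (s * n) = b} : ℝ) / N) atTop (𝓝 δ)

/-- `g_0 = 1`, and `g_{L+1}(b) = 3 ∑_{e ≥ 1, 3 ∣ 2^e b - 1} 2^{-e} g_L((2^e b - 1)/3)` -/
noncomputable def g : ℕ → ℤ → ℝ
  | 0, _ => 1
  | L + 1, b => 3 * ∑' e : ℕ, if (3 : ℤ) ∣ 2 ^ (e + 1) * b - 1 then
      (1 / 2 : ℝ) ^ (e + 1) * g L ((2 ^ (e + 1) * b - 1) / 3) else 0

theorem g_eq : ∀ (L : ℕ) (b : ℤ), g L b = Pool.Agent.R344.FP.gg 1 L b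
  | 0, _ => rfl
  | L + 1, b => by
    unfold g Pool.Agent.R344.FP.gg
    simp only [g_eq L]

/-- **Densities of predecessor sets.** For every nonzero integer `b` let `δ(b)` be the natural density, among
the integers of the sign of `b`, of the integers whose trajectory contains `b`. For all but few `b` of size
about `z` the number `|b| δ(b)` is `2/log(4/3)` times the 3-adic density `g_L(b)`, which only depends on
`b` mod `3^L` and has mean one, and `|b| δ(b)` has the same limiting distribution on both sides of `0`. -/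
theorem result : ∃ δ : ℤ → ℝ,
    (∀ s : ℤ, (s = 1 ∨ s = -1) → ∀ b : ℕ, 1 ≤ b → HasPredecessorDensity s (s * b) (δ (s * b))) ∧
    (∀ B : ℕ, ∃ C : ℝ, 0 < C ∧ ∀ s : ℤ, (s = 1 ∨ s = -1) → ∀ L : ℕ, 1 ≤ L → ∀ z : ℕ, 1 ≤ z →
      C * (L : ℝ) ^ (6 * B + 9) ≤ Real.log z →
      (((Ico z (2 * z)).filter (fun b : ℕ => 1 / (L : ℝ) ^ B <
        |b * δ (s * b) - 2 / Real.log (4 / 3) * g L (s * b)|)).card : ℝ) ≤ C * z / L ^ B) ∧
    (∀ f : ℝ → ℝ, (∃ M, ∀ x, |f x| ≤ M) → (∃ K, ∀ x y, |f x - f y| ≤ K * |x - y|) → ∃ ℓ : ℝ,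
      Tendsto (fun L : ℕ => (∑ r ∈ range (3 ^ L), f (2 / Real.log (4 / 3) * g L (r : ℤ))) / 3 ^ L) atTop (𝓝 ℓ) ∧
      ∀ s : ℤ, (s = 1 ∨ s = -1) →
        Tendsto (fun N : ℕ => (∑ n ∈ Ico N (2 * N), f (n * δ (s * n))) / N) atTop (𝓝 ℓ)) ∧
    (∀ (L : ℕ) (b c : ℤ), (3 : ℤ) ^ L ∣ b - c → g L b = g L c) ∧
    (∀ L : ℕ, ∑ r ∈ range (3 ^ L), g L (r : ℤ) = 3 ^ L) := by
  obtain ⟨δ, h1, h2, h3⟩ := Pool.Agent.R344.FP.final (T := T) (fun _ => rfl) g_eq
  refine ⟨δ, h1, h2, h3, ?_, ?_⟩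
  · intro L b c h
    rw [g_eq, g_eq]
    exact Pool.Agent.R344.FP.gg_periodic 1 L b c h
  · intro L
    simp only [g_eq]
    exact Pool.Agent.R344.FP.gg_mean L

end Pool.Agent.Results.MP_edb5be_nt.PredecessorDensities
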