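import Mathlib
import Pool.Agent.R343.SC3

set_option autoImplicit false

/-!
# Almost all circuits of the cycles of the 3x+1 map are short

A cycle other than `{0}` and `{-1}` is a sequence of `m` circuits: it is cut at its local minima
(the odd elements which are images of even elements). The circuit starting at a local minimum `y` can
have at most about `2.6 log_2 |y|` steps. For each `δ > 0` and `ε > 0`, in all but finitely many cycles
at most `ε m` of the `m` circuits have more than `δ log |y|` steps, and the length `p` of the cycle is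
at most `ε` times the sum of the logarithms of the absolute values of the local minima; in particular
`p ≤ ε m log M`, where `M` is the largest absolute value, for all but finitely many cycles. There is
also an inequality of this kind for all decompositions of the parity word of a cycle into words of
small periods.

Proof: by the `p`-adic subspace theorem (starting file `H547R3.Sub.Growth4`) `s` consecutive circuits,
the first of them starting at `y`, have at most `3 log |y| + C(s)` steps, for each `s`. This is summed
over all windows of `s` consecutive circuits; for the first statement one compares also the sizes of the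
local minima in a window: they can be much smaller than the first one in few windows only, since in
`s` circuits the logarithm of the size cannot increase by more than a factor `4`.
-/

namespace Pool.Agent.Results.MP_edb5be_nt.ShortCircuits

/-- The 3x+1 map on the integers. -/
def T (x : ℤ) : ℤ := if x % 2 = 0 then x / 2 else (3 * x + 1) / 2

/-- `Z` is a cycle of `T`. -/
def IsCycle (Z : Finset ℤ) : Prop :=
  ∃ (x : ℤ) (p : ℕ), 1 ≤ p ∧ T^[p] x = x ∧ Z = (Finset.range p).image fun i => T^[i] x

/-- The local minima of `Z`: the odd elements which are images of even elements of `Z`. -/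
def minima (Z : Finset ℤ) : Finset ℤ := Z.filter fun y => y % 2 = 1 ∧ ∃ z ∈ Z, z % 2 = 0 ∧ T z = y

/-- The number of steps from `y` to the next local minimum, that is, the least `n ≥ 1` such that
`T ^ (n-1) y` is even and `T ^ n y` is odd. -/
noncomputable def circuitLength (y : ℤ) : ℕ := sInf {n | 1 ≤ n ∧ T^[n - 1] y % 2 = 0 ∧ T^[n] y % 2 = 1}

/-- The local minima at which a circuit with at least `δ log |y|` steps starts. -/
noncomputable def longMinima (δ : ℝ) (Z : Finset ℤ) : Finset ℤ :=
  (minima Z).filter fun y => δ * Real.log |(y : ℝ)| ≤ circuitLength y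

open Pool.Agent.R343 in
lemma sum_finite (ε : ℝ) (hε : 0 < ε) :
    {Z : Finset ℤ | IsCycle Z ∧ ε * ∑ y ∈ minima Z, Real.log |(y : ℝ)| < Z.card}.Finite := by
  obtain ⟨C, hC, h⟩ := SC.linear (ε / 2) (by positivity)
  obtain ⟨X, hX⟩ := exists_nat_ge (Real.exp (2 * C / ε))
  refine ((SC.fin_small X).union
    (Set.Finite.insert {0} (Set.finite_singleton ({-1} : Finset ℤ)))).subset ?_
  rintro Z ⟨hZ, hlt⟩
  have hZ' : Pool.Agent.H547R3.IsCycle Z := hZ
  by_cases hsmall : ∃ x ∈ Z, |x| ≤ X
  · left; exact ⟨hZ', hsmall⟩
  by_cases hz0 : Z = {0}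
  · right; left; exact hz0
  by_cases hz1 : Z = {-1}
  · right; right; exact hz1
  exfalso
  push Not at hsmall
  have h1 := h Z hZ' (SC.loc_nonempty hZ' hz0 hz1)
  have h2 : ((SC.loc Z).card : ℝ) * (2 * C / ε) ≤ ∑ y ∈ SC.loc Z, Real.log |(y : ℝ)| := by
    rw [← nsmul_eq_mul, ← Finset.sum_const]
    apply Finset.sum_le_sum
    intro y hy
    have h3 := hsmall y (SC.mem_loc.1 hy).1
    have h4 : (X : ℝ) < |(y : ℝ)| := by exact_mod_cast h3
    rw [Real.le_log_iff_exp_le (by linarith [SC.loc_ne_zero hy])]
    linarith
  have h5 : C * (SC.loc Z).card ≤ ε / 2 * ∑ y ∈ SC.loc Z, Real.log |(y : ℝ)| := by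
    have h6 := mul_le_mul_of_nonneg_left h2 (show 0 ≤ ε / 2 by positivity)
    calc C * ((SC.loc Z).card : ℝ) = ε / 2 * ((SC.loc Z).card * (2 * C / ε)) := by field_simp
      _ ≤ _ := h6
  have e : minima Z = SC.loc Z := rfl
  rw [e] at hlt
  linarith

/-- (1) For all `δ, ε > 0`, in all but finitely many cycles at most `ε m` of the `m` circuits have at
least `δ log |y|` steps, where `y` is the local minimum at which the circuit starts.
(2) For every `ε > 0`, all but finitely many cycles have at most `ε ∑ log |y|` elements, the sum being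
over the local minima `y`.
(3) For every `ε > 0` there is `C` such that for every periodic integer `x` with least period `p` and
every decomposition of its parity word of length `p` into `m` words (cut at
`0 = t 0 ≤ t 1 ≤ ... ≤ t m = p`) each of which has a period `π` with `1 ≤ π ≤ ℓ`,
`p ≤ ε ∑_{i < m} log (|T ^ (t i) x| + 1) + C m (ℓ + 1)`. -/
theorem result :
    (∀ δ ε : ℝ, 0 < δ → 0 < ε →
      {Z : Finset ℤ | IsCycle Z ∧ ε * (minima Z).card < (longMinima δ Z).card}.Finite) ∧
    (∀ ε : ℝ, 0 < ε →
      {Z : Finset ℤ | IsCycle Z ∧ ε * ∑ y ∈ minima Z, Real.log |(y : ℝ)| < Z.card}.Finite) ∧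
    (∀ ε : ℝ, 0 < ε → ∃ C : ℝ, ∀ (x : ℤ) (p m ℓ : ℕ) (t : ℕ → ℕ), 1 ≤ p → T^[p] x = x →
      (∀ j, 1 ≤ j → j < p → T^[j] x ≠ x) → t 0 = 0 → t m = p → (∀ i < m, t i ≤ t (i + 1)) →
      (∀ i < m, ∃ π, 1 ≤ π ∧ π ≤ ℓ ∧ ∀ j, t i ≤ j → j + π < t (i + 1) →
        T^[j + π] x % 2 = T^[j] x % 2) →
      (p : ℝ) ≤ ε * ∑ i ∈ Finset.range m, Real.log (|((T^[t i] x : ℤ) : ℝ)| + 1) +
        C * (m * (ℓ + 1))) := by
  refine ⟨fun δ ε hδ hε => Pool.Agent.R343.SC.finite_long δ ε hδ hε, sum_finite, fun ε hε => ?_⟩
  obtain ⟨C, -, h⟩ := Pool.Agent.R343.SC.pieces ε hε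
  exact ⟨C, h⟩

end Pool.Agent.Results.MP_edb5be_nt.ShortCircuits
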